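import Pool.Agent.T9h20.TG.Spec2

/-!
# Piece (GA): no zeros in the gaps

Author: helper19.
-/

set_option autoImplicit false

open MeasureTheory Set Filter Topology

namespace Pool.Agent.T9h19.TG

open Pool.Agent.T9h20.TA (mon mx)
open Pool.Agent.T9h20.TE (DD)
open Pool.Agent.T9h20.TF (Fr Fc MM)
open Pool.Agent.T9h20.TG

theorem mx_nn {t : ℕ} [NeZero t] (c a : Fin t → ℝ) (y : ℝ) : 0 ≤ mx c a y := by
  unfold mx
  exact abs_nonneg _

theorem sGap (HP : SProd) (HFc : SFac) (HS : SSize) : SGap := by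
  classical
  intro k q t m _ b d al c a hal s0 p r hpr hc hb hDD
  obtain ⟨hMM, B, hB1, hB2, hB3, hB4, hB5⟩ := HS k q t b d al c a s0 p r hpr hc hb hDD
  refine ⟨B, hB1, hB2, hB3, hB4, ?_⟩
  intro c' hc' G y y' hG hy hy' hdist hsep hF0
  obtain ⟨i0, hi0⟩ := hB5 G y y' hG hy hy' hdist hsep
  refine ⟨i0, ?_⟩
  have ht1 : (1 : ℝ) ≤ t := by exact_mod_cast NeZero.one_le
  have hT1 : (1 : ℝ) ≤ 2 * t := by linarith
  have hT0 : (0 : ℝ) ≤ 2 * t := by linarith
  obtain ⟨E, hE⟩ : ∃ E : Fin k → ℕ, ∀ i, E i = d i + ∑ j, al i j * a j (s0 j) := ⟨_, fun _ => rfl⟩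
  obtain ⟨ct, hct⟩ : ∃ ct : Fin q → ℝ, ∀ j, ct j =
    ∑ s ∈ Finset.univ.filter (fun s => a j s = a j (s0 j)), c' j s := ⟨_, fun _ => rfl⟩
  obtain ⟨κ, hκ⟩ : ∃ κ : ℝ, κ = ∑ i ∈ Finset.univ.filter (fun i => E i = E i0),
    b i * ∏ j, ct j ^ al i j := ⟨_, rfl⟩
  have hMMn : ∀ i x, 0 ≤ MM b (fun i => (d i : ℝ)) al c (fun j s => (a j s : ℝ)) i x := by
    intro i x
    unfold MM
    exact mul_nonneg (mul_nonneg (abs_nonneg _) (Real.exp_pos _).le)
      (Finset.prod_nonneg fun j _ => pow_nonneg (mx_nn _ _ _) _)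
  have key : ∀ x ∈ ({y, y'} : Set ℝ),
      |Fr b (fun i => (d i : ℝ)) al c' (fun j s => (a j s : ℝ)) x - Real.exp (E i0 * x) * κ| ≤
        k * (m + 1) * (2 * t : ℝ) ^ m * Real.exp (-G) *
          MM b (fun i => (d i : ℝ)) al c (fun j s => (a j s : ℝ)) i0 x := by
    intro x hx
    have hxI : p + G ≤ x ∧ x + G ≤ r := by
      have h1 := hdist p hB2
      have h2 := hdist r hB3
      rcases hx with rfl | rfl
      · rw [abs_of_nonneg (by linarith [hy.1] : (0 : ℝ) ≤ x - p)] at h1
        rw [abs_of_nonpos (by linarith [hy.2] : x - r ≤ 0)] at h2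
        exact ⟨by linarith [h1.1], by linarith [h2.1]⟩
      · rw [abs_of_nonneg (by linarith [hy'.1] : (0 : ℝ) ≤ x - p)] at h1
        rw [abs_of_nonpos (by linarith [hy'.2] : x - r ≤ 0)] at h2
        exact ⟨by linarith [h1.2], by linarith [h2.2]⟩
    obtain ⟨X, hX⟩ : ∃ X : Fin q → ℝ, ∀ j, X j =
      ∑ s, mon (c' j) (fun s => (a j s : ℝ)) s x := ⟨_, fun _ => rfl⟩
    obtain ⟨W, hW⟩ : ∃ W : Fin q → ℝ, ∀ j, W j = Real.exp (a j (s0 j) * x) * ct j :=
      ⟨_, fun _ => rfl⟩
    obtain ⟨M, hM⟩ : ∃ M : Fin q → ℝ, ∀ j, M j = mx (c j) (fun s => (a j s : ℝ)) x :=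
      ⟨_, fun _ => rfl⟩
    have hMn : ∀ j, 0 ≤ M j := fun j => by rw [hM]; exact mx_nn _ _ _
    have hf : ∀ j, |X j| ≤ 2 * t * M j ∧ |W j| ≤ 2 * t * M j ∧
        |X j - W j| ≤ Real.exp (-G) * (2 * t * M j) := by
      intro j
      rw [hX, hW, hM, hct]
      exact HFc t (c j) (c' j) (a j) (s0 j) p r G x hG.le (hc' j) (hDD j).1 (hDD j).2 hxI.1 hxI.2
    have hprod : ∀ i, |∏ j, X j ^ al i j - ∏ j, W j ^ al i j| ≤
        m * Real.exp (-G) * (2 * t : ℝ) ^ m * ∏ j, M j ^ al i j := fun i =>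
      HP q m (al i) X W M (2 * t) (Real.exp (-G)) hT1 (Real.exp_pos _).le (hal i)
        fun j => ⟨hMn j, (hf j).1, (hf j).2.1, (hf j).2.2⟩
    have hMMx : ∀ i, MM b (fun i => (d i : ℝ)) al c (fun j s => (a j s : ℝ)) i x =
        |b i| * Real.exp (d i * x) * ∏ j, M j ^ al i j := by
      intro i
      unfold MM
      simp only [hM]
    have hFr : Fr b (fun i => (d i : ℝ)) al c' (fun j s => (a j s : ℝ)) x =
        ∑ i, b i * Real.exp (d i * x) * ∏ j, X j ^ al i j := by
      unfold Fr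
      simp only [hX]
    have hK : Real.exp (E i0 * x) * κ =
        ∑ i, if E i = E i0 then b i * Real.exp (d i * x) * ∏ j, W j ^ al i j else 0 := by
      rw [hκ, Finset.mul_sum, ← Finset.sum_filter]
      refine Finset.sum_congr rfl fun i hi => ?_
      rw [Finset.mem_filter] at hi
      have h1 : ∏ j, W j ^ al i j =
          Real.exp ((∑ j, (al i j : ℝ) * a j (s0 j)) * x) * ∏ j, ct j ^ al i j := by
        rw [Finset.sum_mul, Real.exp_sum, ← Finset.prod_mul_distrib]
        refine Finset.prod_congr rfl fun j _ => ?_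
        rw [hW, mul_pow, ← Real.exp_nat_mul]
        congr 2; ring
      rw [h1, ← hi.2, hE i]
      push_cast
      rw [add_mul, Real.exp_add]
      ring
    rw [hFr, hK, ← Finset.sum_sub_distrib]
    refine (Finset.abs_sum_le_sum_abs _ _).trans ?_
    have hterm : ∀ i ∈ (Finset.univ : Finset (Fin k)),
        |b i * Real.exp (d i * x) * ∏ j, X j ^ al i j -
          (if E i = E i0 then b i * Real.exp (d i * x) * ∏ j, W j ^ al i j else 0)| ≤
        (m + 1) * (2 * t : ℝ) ^ m * Real.exp (-G) *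
          MM b (fun i => (d i : ℝ)) al c (fun j s => (a j s : ℝ)) i0 x := by
      intro i _
      have hi := hi0 i x hx
      have hTm : (0 : ℝ) ≤ (2 * t : ℝ) ^ m := pow_nonneg hT0 m
      have hG0 : 0 ≤ Real.exp (-G) := (Real.exp_pos _).le
      have h0 := hMMn i0 x
      by_cases hcase : E i = E i0
      · rw [if_pos hcase, ← mul_sub, abs_mul, abs_mul, abs_of_pos (Real.exp_pos (d i * x))]
        calc |b i| * Real.exp (d i * x) * |∏ j, X j ^ al i j - ∏ j, W j ^ al i j|
            ≤ |b i| * Real.exp (d i * x) *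
              (m * Real.exp (-G) * (2 * t : ℝ) ^ m * ∏ j, M j ^ al i j) :=
              mul_le_mul_of_nonneg_left (hprod i)
                (mul_nonneg (abs_nonneg _) (Real.exp_pos _).le)
          _ = (m * (2 * t : ℝ) ^ m * Real.exp (-G)) *
              MM b (fun i => (d i : ℝ)) al c (fun j s => (a j s : ℝ)) i x := by
              rw [hMMx]; ring
          _ ≤ (m * (2 * t : ℝ) ^ m * Real.exp (-G)) *
              MM b (fun i => (d i : ℝ)) al c (fun j s => (a j s : ℝ)) i0 x :=
              mul_le_mul_of_nonneg_left hi.1 (by positivity)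
          _ ≤ _ := by
              apply mul_le_mul_of_nonneg_right _ h0
              apply mul_le_mul_of_nonneg_right _ hG0
              apply mul_le_mul_of_nonneg_right _ hTm
              linarith
      · rw [if_neg hcase, sub_zero, abs_mul, abs_mul, abs_of_pos (Real.exp_pos (d i * x))]
        have hcase' : d i + ∑ j, al i j * a j (s0 j) ≠ d i0 + ∑ j, al i0 j * a j (s0 j) := by
          rw [← hE i, ← hE i0]; exact hcase
        have h2 : |∏ j, X j ^ al i j| ≤ (2 * t : ℝ) ^ m * ∏ j, M j ^ al i j := by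
          rw [Finset.abs_prod]
          calc ∏ j, |X j ^ al i j| ≤ ∏ j, ((2 * t : ℝ) ^ al i j * M j ^ al i j) := by
                refine Finset.prod_le_prod (fun j _ => abs_nonneg _) fun j _ => ?_
                rw [abs_pow, ← mul_pow]
                exact pow_le_pow_left₀ (abs_nonneg _) (hf j).1 _
            _ = (2 * t : ℝ) ^ (∑ j, al i j) * ∏ j, M j ^ al i j := by
                rw [Finset.prod_mul_distrib, Finset.prod_pow_eq_pow_sum]
            _ ≤ (2 * t : ℝ) ^ m * ∏ j, M j ^ al i j := by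
                apply mul_le_mul_of_nonneg_right (pow_le_pow_right₀ hT1 (hal i))
                exact Finset.prod_nonneg fun j _ => pow_nonneg (hMn j) _
        calc |b i| * Real.exp (d i * x) * |∏ j, X j ^ al i j|
            ≤ |b i| * Real.exp (d i * x) * ((2 * t : ℝ) ^ m * ∏ j, M j ^ al i j) :=
              mul_le_mul_of_nonneg_left h2 (mul_nonneg (abs_nonneg _) (Real.exp_pos _).le)
          _ = (2 * t : ℝ) ^ m * MM b (fun i => (d i : ℝ)) al c (fun j s => (a j s : ℝ)) i x := by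
              rw [hMMx]; ring
          _ ≤ (2 * t : ℝ) ^ m * (Real.exp (-G) *
              MM b (fun i => (d i : ℝ)) al c (fun j s => (a j s : ℝ)) i0 x) :=
              mul_le_mul_of_nonneg_left (hi.2 hcase') hTm
          _ = 1 * ((2 * t : ℝ) ^ m * Real.exp (-G) *
              MM b (fun i => (d i : ℝ)) al c (fun j s => (a j s : ℝ)) i0 x) := by ring
          _ ≤ (m + 1) * ((2 * t : ℝ) ^ m * Real.exp (-G) *
              MM b (fun i => (d i : ℝ)) al c (fun j s => (a j s : ℝ)) i0 x) := by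
              apply mul_le_mul_of_nonneg_right _ (by positivity)
              have : (0 : ℝ) ≤ m := Nat.cast_nonneg m
              linarith
          _ = _ := by ring
    refine (Finset.sum_le_sum hterm).trans (le_of_eq ?_)
    rw [Finset.sum_const, Finset.card_univ, Fintype.card_fin, nsmul_eq_mul]
    ring
  have k1 := key y (by simp)
  have k2 := key y' (by simp)
  rw [hF0, zero_sub, abs_neg] at k2
  have k3 : |Real.exp (E i0 * y) * κ| ≤ k * (m + 1) * (2 * t : ℝ) ^ m * Real.exp (-G) *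
      MM b (fun i => (d i : ℝ)) al c (fun j s => (a j s : ℝ)) i0 y := by
    have h1 : Real.exp (E i0 * y) = Real.exp (E i0 * (y - y')) * Real.exp (E i0 * y') := by
      rw [← Real.exp_add]; congr 1; ring
    rw [h1, mul_assoc, abs_mul, abs_of_pos (Real.exp_pos _), hMM y' hy' y hy i0, ← hE i0]
    calc Real.exp (E i0 * (y - y')) * |Real.exp (E i0 * y') * κ|
        ≤ Real.exp (E i0 * (y - y')) * (k * (m + 1) * (2 * t : ℝ) ^ m * Real.exp (-G) *
          MM b (fun i => (d i : ℝ)) al c (fun j s => (a j s : ℝ)) i0 y') :=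
          mul_le_mul_of_nonneg_left k2 (Real.exp_pos _).le
      _ = _ := by ring
  have k4 : Fr b (fun i => (d i : ℝ)) al c' (fun j s => (a j s : ℝ)) y =
      (Fr b (fun i => (d i : ℝ)) al c' (fun j s => (a j s : ℝ)) y - Real.exp (E i0 * y) * κ) +
        Real.exp (E i0 * y) * κ := by ring
  rw [k4]
  refine (abs_add_le _ _).trans ?_
  linarith


end Pool.Agent.T9h19.TG
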